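import Pool.Agent.R280.XLogXEmb

/-!
# A projectional skeleton for which the recipe of Q2 fails (MP_2163b8_an, Q2: disproved)

Let `X = ℓ_1`, let `z` be the functional `x ↦ ∑ x_i`, and let `c_0 ⊆ ℓ_∞ = X*`. For `a ∈ c_0 ∖ {0}` there is
`x_a ∈ X` with `a(x_a) = 1`, `z(x_a) = 0` and `‖a‖ ‖x_a‖ ≤ 4`. The projections `P_a x = a(x) x_a`, as an
antichain, together with the identity as the largest element form a projectional skeleton with
`D = X*`. For `a ∈ c_0 ∖ {0}` we have `P_a* a = a`, and all the sets `Φ(a)`, `a ∈ c_0`, are contained in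
the kernel of `z`, although `c_0` is weak-star dense.
-/

set_option autoImplicit false

open Set Topology Filter Pool.Agent.R280.XLogX

namespace Pool.Agent.Results.MP_2163b8_an.GeneratorRecipe

section defs

variable {X : Type} [NormedAddCommGroup X] [NormedSpace ℝ X]

/-- `(P_s)` is a projectional skeleton on `X`. -/
structure IsSkeleton {Γ : Type} [PartialOrder Γ] (P : Γ → X →L[ℝ] X) : Prop where
  directed : ∀ s t : Γ, ∃ u, s ≤ u ∧ t ≤ u
  proj : ∀ s, ∀ x, P s (P s x) = P s x
  separable : ∀ s, TopologicalSpace.IsSeparable (Set.range (P s))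
  comm : ∀ s t, s ≤ t → ∀ x, P s x = P s (P t x) ∧ P s x = P t (P s x)
  sup : ∀ f : ℕ → Γ, Monotone f → ∃ s, IsLUB (Set.range f) s ∧
    Set.range (P s) = closure (⋃ n, Set.range (P (f n)))
  union : ∀ x, ∃ s, x ∈ Set.range (P s)

/-- `D`, the subspace of `X*` induced by the skeleton: the union of the ranges of the adjoints. -/
def induced {Γ : Type} (P : Γ → X →L[ℝ] X) : Set (X →L[ℝ] ℝ) :=
  {f | ∃ (s : Γ) (g : X →L[ℝ] ℝ), f = g.comp (P s)}

/-- `D ⊆ X*` is norming: `c * ‖x‖ ≤ sup {|f x| : f ∈ D, ‖f‖ ≤ 1}` for some `c > 0`. -/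
def IsNorming (D : Set (X →L[ℝ] ℝ)) : Prop :=
  ∃ c : ℝ, 0 < c ∧ ∀ x : X, c * ‖x‖ ≤ sSup {r : ℝ | ∃ f ∈ D, ‖f‖ ≤ 1 ∧ r = |f x|}

/-- `f` is in the weak-star closure of `A`. -/
def InWeakStarClosure (A : Set (X →L[ℝ] ℝ)) (f : X →L[ℝ] ℝ) : Prop :=
  StrongDual.toWeakDual f ∈ closure (StrongDual.toWeakDual '' A)

/-- `(D, Φ)` is a projectional generator on `X`. -/
def IsProjectionalGenerator (D : Set (X →L[ℝ] ℝ)) (Φ : (X →L[ℝ] ℝ) → Set X) : Prop :=
  (∃ L : Submodule ℝ (X →L[ℝ] ℝ), D = L) ∧ IsNorming D ∧ (∀ f ∈ D, (Φ f).Countable) ∧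
    ∀ A : Set (X →L[ℝ] ℝ), A ⊆ D → (∃ L : Submodule ℝ (X →L[ℝ] ℝ), closure A = L) →
      ∀ f : X →L[ℝ] ℝ, InWeakStarClosure A f → (∀ g ∈ A, ∀ x ∈ Φ g, f x = 0) → f = 0

end defs

/-- the unit vectors of `ℓ_1` -/
noncomputable def e (i : ℕ) : L1 := lp.single (E := fun _ : ℕ => ℝ) 1 i (1 : ℝ)

lemma norm_e (i : ℕ) : ‖e i‖ = 1 := by
  unfold e
  rw [lp.norm_single (by norm_num), norm_one]

lemma single_smul (i : ℕ) (c : ℝ) : lp.single (E := fun _ : ℕ => ℝ) 1 i c = c • e i := by
  unfold e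
  rw [← lp.single_smul, smul_eq_mul, mul_one]

lemma hasSum_e (x : L1) : HasSum (fun i => x i • e i) x := by
  have h1 := lp.hasSum_single (E := fun _ : ℕ => ℝ) (p := 1) (by norm_num) x
  have h2 : (fun i => x i • e i) = fun i => lp.single (E := fun _ : ℕ => ℝ) 1 i (x i) := by
    funext i
    rw [single_smul]
  rw [h2]
  exact h1

lemma hasSum_apply (f : L1 →L[ℝ] ℝ) (x : L1) : HasSum (fun i => x i * f (e i)) (f x) := by
  have h := (hasSum_e x).mapL f
  simp only [map_smul, smul_eq_mul] at h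
  exact h

lemma apply_le {f : L1 →L[ℝ] ℝ} {C : ℝ} (h : ∀ i, |f (e i)| ≤ C) (x : L1) : |f x| ≤ C * ‖x‖ := by
  rw [← (hasSum_apply f x).tsum_eq, norm_eq, ← tsum_mul_left, ← Real.norm_eq_abs]
  have h1 : ∀ i, ‖x i * f (e i)‖ ≤ C * |x i| := by
    intro i
    rw [norm_mul, Real.norm_eq_abs, Real.norm_eq_abs, mul_comm]
    exact mul_le_mul_of_nonneg_right (h i) (abs_nonneg _)
  have h2 := (summable x).mul_left C
  have h3 : Summable fun i => ‖x i * f (e i)‖ := Summable.of_nonneg_of_le
    (fun i => norm_nonneg _) h1 h2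
  exact (norm_tsum_le_tsum_norm h3).trans (h3.tsum_le_tsum h1 h2)

/-- the sum functional -/
noncomputable def z : L1 →L[ℝ] ℝ :=
  LinearMap.mkContinuous
    { toFun := fun x => ∑' i, x i
      map_add' := fun x y => by
        rw [← (summable x).of_abs.tsum_add (summable y).of_abs]
        rfl
      map_smul' := fun c x => by
        rw [RingHom.id_apply, smul_eq_mul, ← tsum_mul_left]
        rfl } 1 (fun x => by
    rw [one_mul, norm_eq]
    exact (norm_tsum_le_tsum_norm (f := fun i => x i) (summable x)).trans le_rfl)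

lemma z_e (i : ℕ) : z (e i) = 1 := by
  show ∑' k, (e i) k = 1
  rw [tsum_eq_single i]
  · unfold e; rw [single_apply', if_pos rfl]
  · intro k hk
    unfold e
    rw [single_apply', if_neg hk]

/-- `c_0` as a subspace of `ℓ_1*` -/
noncomputable def c0 : Submodule ℝ (L1 →L[ℝ] ℝ) where
  carrier := {f | Tendsto (fun i => f (e i)) atTop (𝓝 0)}
  zero_mem' := tendsto_const_nhds
  add_mem' := by
    intro f g hf hg
    have := Tendsto.add (show Tendsto (fun i => f (e i)) atTop (𝓝 0) from hf) hg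
    rw [add_zero] at this
    exact this
  smul_mem' := by
    intro c f hf
    have := Tendsto.const_mul c (show Tendsto (fun i => f (e i)) atTop (𝓝 0) from hf)
    rw [mul_zero] at this
    exact this

lemma isClosed_c0 : IsClosed (c0 : Set (L1 →L[ℝ] ℝ)) := by
  rw [← isSeqClosed_iff_isClosed]
  intro f g hf hfg
  show Tendsto (fun i => g (e i)) atTop (𝓝 0)
  rw [Metric.tendsto_atTop]
  intro ε hε
  rw [Metric.tendsto_atTop] at hfg
  obtain ⟨n, hn⟩ := hfg (ε / 2) (half_pos hε)
  have h1 := hn n le_rfl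
  have h2 : Tendsto (fun i => (f n) (e i)) atTop (𝓝 0) := hf n
  rw [Metric.tendsto_atTop] at h2
  obtain ⟨N, hN⟩ := h2 (ε / 2) (half_pos hε)
  refine ⟨N, fun i hi => ?_⟩
  have h3 := hN i hi
  rw [Real.dist_eq, sub_zero] at h3 ⊢
  have h4 : |(f n - g) (e i)| ≤ ‖f n - g‖ := by
    have := (f n - g).le_opNorm (e i)
    rwa [norm_e, mul_one, Real.norm_eq_abs] at this
  rw [dist_eq_norm] at h1
  have h5 : g (e i) = (f n) (e i) - (f n - g) (e i) := by
    rw [_root_.sub_apply]; ring
  rw [h5]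
  have h6 := abs_sub ((f n) (e i)) ((f n - g) (e i))
  linarith

/-- non-zero elements of `c_0` -/
abbrev A₀ : Type := {f : L1 →L[ℝ] ℝ // f ∈ c0 ∧ f ≠ 0}

lemma exists_vec (a : A₀) : ∃ x : L1, a.1 x = 1 ∧ z x = 0 ∧ ‖a.1‖ * ‖x‖ ≤ 4 := by
  obtain ⟨f, hf, hf0⟩ := a
  have hn : 0 < ‖f‖ := norm_pos_iff.2 hf0
  obtain ⟨i, hi⟩ : ∃ i, 2 / 3 * ‖f‖ < |f (e i)| := by
    by_contra hcon
    push Not at hcon
    have h1 : ‖f‖ ≤ 2 / 3 * ‖f‖ := by
      refine ContinuousLinearMap.opNorm_le_bound _ (by positivity) fun x => ?_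
      exact apply_le hcon x
    linarith
  obtain ⟨j, hj⟩ : ∃ j, |f (e j)| < 1 / 6 * ‖f‖ := by
    have h1 : Tendsto (fun i => |f (e i)|) atTop (𝓝 0) := by
      have := (show Tendsto (fun i => f (e i)) atTop (𝓝 0) from hf).abs
      rwa [abs_zero] at this
    exact (h1.eventually_lt_const (by positivity)).exists
  have h1 : 1 / 2 * ‖f‖ ≤ |f (e i) - f (e j)| := by
    have := abs_sub_abs_le_abs_sub (f (e i)) (f (e j))
    linarith
  have h2 : 0 < |f (e i) - f (e j)| := lt_of_lt_of_le (by positivity) h1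
  have h3 : f (e i) - f (e j) ≠ 0 := abs_pos.1 h2
  refine ⟨(f (e i) - f (e j))⁻¹ • (e i - e j), ?_, ?_, ?_⟩
  · show f _ = 1
    rw [map_smul, map_sub, smul_eq_mul, inv_mul_cancel₀ h3]
  · rw [map_smul, map_sub, z_e, z_e, sub_self, smul_zero]
  · rw [norm_smul, norm_inv, Real.norm_eq_abs]
    have h4 : ‖e i - e j‖ ≤ 2 := by
      refine (norm_sub_le _ _).trans ?_
      rw [norm_e, norm_e]
      norm_num
    show ‖f‖ * (|f (e i) - f (e j)|⁻¹ * ‖e i - e j‖) ≤ 4
    rw [← mul_assoc, ← div_eq_mul_inv, div_mul_eq_mul_div, div_le_iff₀ h2]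
    nlinarith [norm_nonneg f]

/-- the vectors `x_a` -/
noncomputable def vec (a : A₀) : L1 := (exists_vec a).choose

lemma vec_one (a : A₀) : a.1 (vec a) = 1 := (exists_vec a).choose_spec.1
lemma vec_z (a : A₀) : z (vec a) = 0 := (exists_vec a).choose_spec.2.1
lemma vec_norm (a : A₀) : ‖a.1‖ * ‖vec a‖ ≤ 4 := (exists_vec a).choose_spec.2.2

/-- The index set: the antichain `A₀` with a largest element. -/
inductive G : Type
  | top : G
  | of : A₀ → G

instance : PartialOrder G where
  le s t := s = t ∨ t = G.top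
  le_refl s := Or.inl rfl
  le_trans s t r := by
    rintro (rfl | rfl) (rfl | rfl)
    · exact Or.inl rfl
    · exact Or.inr rfl
    · exact Or.inr rfl
    · exact Or.inr rfl
  le_antisymm s t := by
    rintro (rfl | rfl) (h | h)
    · rfl
    · rfl
    · exact h.symm
    · exact h

lemma le_def (s t : G) : s ≤ t ↔ s = t ∨ t = G.top := Iff.rfl

/-- the projections -/
noncomputable def P : G → L1 →L[ℝ] L1
  | .top => ContinuousLinearMap.id ℝ L1
  | .of a => a.1.smulRight (vec a)

lemma P_top (x : L1) : P .top x = x := rfl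

lemma P_of (a : A₀) (x : L1) : P (.of a) x = a.1 x • vec a := rfl

lemma P_proj (s : G) (x : L1) : P s (P s x) = P s x := by
  cases s with
  | top => rfl
  | of a => rw [P_of, P_of, map_smul, vec_one, smul_eq_mul, mul_one]

lemma norm_P_le (s : G) : ‖P s‖ ≤ 4 := by
  cases s with
  | top => exact (ContinuousLinearMap.norm_id_le).trans (by norm_num)
  | of a =>
    refine le_trans (le_of_eq ?_) (vec_norm a)
    exact ContinuousLinearMap.norm_smulRight_apply _ _

lemma isClosed_range (s : G) : IsClosed (Set.range (P s)) := by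
  have h1 : Set.range (P s) = {x | P s x = x} := by
    ext x
    constructor
    · rintro ⟨y, rfl⟩; exact P_proj s y
    · intro hx; exact ⟨x, hx⟩
  rw [h1]
  exact isClosed_eq (P s).continuous continuous_id

lemma isSkeleton : IsSkeleton P where
  directed := fun s t => ⟨.top, Or.inr rfl, Or.inr rfl⟩
  proj := P_proj
  separable := fun s =>
    (TopologicalSpace.IsSeparable.of_separableSpace (univ : Set L1)).mono (subset_univ _)
  comm := by
    rintro s t (rfl | rfl) x
    · exact ⟨(P_proj s x).symm, (P_proj s x).symm⟩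
    · exact ⟨rfl, rfl⟩
  sup := by
    intro f hf
    by_cases htop : ∃ n, f n = .top
    · obtain ⟨n, hn⟩ := htop
      refine ⟨.top, ⟨?_, ?_⟩, ?_⟩
      · rintro _ ⟨m, rfl⟩
        exact Or.inr rfl
      · intro t ht
        rw [← hn]
        exact ht ⟨n, rfl⟩
      · have h1 : Set.range (P .top) = univ := eq_univ_of_forall fun x => ⟨x, rfl⟩
        rw [h1]
        symm
        rw [← univ_subset_iff]
        refine subset_trans ?_ subset_closure
        intro x _
        exact mem_iUnion.2 ⟨n, by rw [hn, h1]; exact mem_univ x⟩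
    · push Not at htop
      have h1 : ∀ n, f n = f 0 := by
        intro n
        rcases hf (Nat.zero_le n) with h | h
        · exact h.symm
        · exact absurd h (htop n)
      refine ⟨f 0, ⟨?_, ?_⟩, ?_⟩
      · rintro _ ⟨m, rfl⟩
        rw [h1 m]
      · intro t ht
        exact ht ⟨0, rfl⟩
      · have h2 : ⋃ n, Set.range (P (f n)) = Set.range (P (f 0)) := by
          have h3 : ∀ n, Set.range (P (f n)) = Set.range (P (f 0)) := fun n => by rw [h1 n]
          rw [iUnion_congr h3, iUnion_const]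
        rw [h2, (isClosed_range _).closure_eq]
  union := fun x => ⟨.top, x, rfl⟩

lemma induced_eq : induced P = univ := by
  rw [← univ_subset_iff]
  intro f _
  exact ⟨.top, f, rfl⟩

lemma isNorming : IsNorming (univ : Set (L1 →L[ℝ] ℝ)) := by
  refine ⟨1, one_pos, fun x => ?_⟩
  rw [one_mul]
  have hbdd : BddAbove {r : ℝ | ∃ f ∈ (univ : Set (L1 →L[ℝ] ℝ)), ‖f‖ ≤ 1 ∧ r = |f x|} := by
    refine ⟨‖x‖, ?_⟩
    rintro _ ⟨f, -, hf, rfl⟩
    have h1 := f.le_opNorm x
    rw [Real.norm_eq_abs] at h1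
    exact h1.trans (mul_le_of_le_one_left (norm_nonneg _) hf)
  obtain ⟨g, hg1, hg2⟩ := exists_dual_vector'' ℝ x
  refine le_csSup hbdd ⟨g, mem_univ _, hg1, ?_⟩
  rw [hg2]
  simp

lemma z_mem_closure : InWeakStarClosure (c0 : Set (L1 →L[ℝ] ℝ)) z := by
  unfold InWeakStarClosure
  set g : ℕ → (L1 →L[ℝ] ℝ) := fun n => ∑ i ∈ Finset.range n, coord i with hg
  have hge : ∀ n x, g n x = ∑ i ∈ Finset.range n, x i := by
    intro n x
    rw [hg]
    simp only [_root_.sum_apply]
    rfl
  refine mem_closure_of_tendsto (f := fun n => StrongDual.toWeakDual (g n)) (b := atTop) ?_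
    (Eventually.of_forall fun n => ⟨g n, ?_, rfl⟩)
  · rw [tendsto_iff_forall_eval_tendsto_topDualPairing]
    intro x
    have h1 : Tendsto (fun n => ∑ i ∈ Finset.range n, x i) atTop (𝓝 (∑' i, x i)) :=
      (summable x).of_abs.hasSum.tendsto_sum_nat
    have h2 : (fun n => ∑ i ∈ Finset.range n, x i) = fun n => g n x := by
      funext n
      rw [hge]
    rw [h2] at h1
    exact h1
  · show Tendsto (fun i => g n (e i)) atTop (𝓝 0)
    refine tendsto_const_nhds.congr' ?_
    filter_upwards [eventually_ge_atTop n] with i hi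
    rw [hge, Finset.sum_eq_zero]
    intro k hk
    unfold e
    rw [single_apply', if_neg]
    have := Finset.mem_range.1 hk
    omega

/-- an element of `A₀` -/
noncomputable def a₀ : A₀ := ⟨coord 0, by
  constructor
  · show Tendsto (fun i => coord 0 (e i)) atTop (𝓝 0)
    refine tendsto_const_nhds.congr' ?_
    filter_upwards [eventually_ge_atTop 1] with i hi
    rw [coord_apply]
    unfold e
    rw [single_apply', if_neg]
    omega
  · intro h
    have h1 : coord 0 (e 0) = 0 := by rw [h]; rfl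
    rw [coord_apply] at h1
    unfold e at h1
    rw [single_apply', if_pos rfl] at h1
    exact one_ne_zero h1⟩

open Classical in
/-- the choice of the indices -/
noncomputable def sel (f : L1 →L[ℝ] ℝ) : G :=
  if h : f ∈ c0 ∧ f ≠ 0 then .of ⟨f, h⟩ else if f = 0 then .of a₀ else .top

/-- countable dense subsets of the ranges -/
noncomputable def dn : G → Set L1
  | .top => Set.range (TopologicalSpace.denseSeq L1)
  | .of a => Set.range fun q : ℚ => (q : ℝ) • vec a

lemma dn_countable : ∀ s : G, (dn s).Countable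
  | .top => countable_range _
  | .of _ => countable_range _

lemma dn_sub : ∀ s : G, dn s ⊆ Set.range (P s)
  | .top => fun x _ => ⟨x, rfl⟩
  | .of a => by
    rintro _ ⟨q, rfl⟩
    exact ⟨(q : ℝ) • vec a, by rw [P_of, map_smul, vec_one, smul_eq_mul, mul_one]⟩

lemma dn_dense : ∀ s : G, Set.range (P s) ⊆ closure (dn s)
  | .top => fun x _ => TopologicalSpace.denseRange_denseSeq L1 x
  | .of a => by
    rintro _ ⟨x, rfl⟩
    rw [P_of]
    have h1 : Continuous fun t : ℝ => t • vec a := continuous_id.smul continuous_const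
    have h2 := h1.range_subset_closure_image_dense Rat.isDenseEmbedding_coe_real.dense
    have h3 : (fun t : ℝ => t • vec a) '' Set.range ((↑) : ℚ → ℝ) = dn (.of a) := by
      rw [← Set.range_comp]
      rfl
    rw [h3] at h2
    exact h2 ⟨a.1 x, rfl⟩

/-- There are a Banach space `X`, a projectional skeleton `(P_s)` on `X` with `‖P_s‖ ≤ 4`, and choices
of `s(x*)` and `Φ(x*)` for `x* ∈ D` as in Q2, such that `D` is a norming subspace but `(D, Φ)` is not a
projectional generator. -/
theorem result : ∃ (X : Type) (_ : NormedAddCommGroup X) (_ : NormedSpace ℝ X) (Γ : Type)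
    (_ : PartialOrder Γ) (P : Γ → X →L[ℝ] X), CompleteSpace X ∧ IsSkeleton P ∧
      (∀ s, ‖P s‖ ≤ 4) ∧ IsNorming (induced P) ∧
      ∃ (s : (X →L[ℝ] ℝ) → Γ) (Φ : (X →L[ℝ] ℝ) → Set X),
        (∀ f ∈ induced P, f.comp (P (s f)) = f ∧ (Φ f).Countable ∧
          Φ f ⊆ Set.range (P (s f)) ∧ Set.range (P (s f)) ⊆ closure (Φ f)) ∧
        ¬ IsProjectionalGenerator (induced P) Φ := by
  classical
  refine ⟨L1, inferInstance, inferInstance, G, inferInstance, P, inferInstance, isSkeleton,
    norm_P_le, by rw [induced_eq]; exact isNorming, sel, fun f => dn (sel f), ?_, ?_⟩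
  · intro f _
    refine ⟨?_, dn_countable _, dn_sub _, dn_dense _⟩
    unfold sel
    split_ifs with h h0
    · ext x
      rw [ContinuousLinearMap.comp_apply, P_of, map_smul]
      have := vec_one ⟨f, h⟩
      rw [this, smul_eq_mul, mul_one]
    · rw [h0]
      ext x
      rfl
    · rfl
  · rintro ⟨-, -, -, hgen⟩
    have h1 := hgen (c0 : Set (L1 →L[ℝ] ℝ)) (by rw [induced_eq]; exact subset_univ _)
      ⟨c0, isClosed_c0.closure_eq⟩ z z_mem_closure (by
        intro g hg x hx
        have h2 : ∃ a : A₀, sel g = .of a := by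
          unfold sel
          by_cases h0 : g = 0
          · refine ⟨a₀, ?_⟩
            rw [dif_neg (fun h => h.2 h0), if_pos h0]
          · exact ⟨⟨g, hg, h0⟩, dif_pos ⟨hg, h0⟩⟩
        obtain ⟨a, ha⟩ := h2
        simp only [ha] at hx
        obtain ⟨q, rfl⟩ := hx
        show z ((q : ℝ) • vec a) = 0
        rw [map_smul, vec_z, smul_zero])
    have h2 := z_e 0
    rw [h1] at h2
    exact zero_ne_one h2

end Pool.Agent.Results.MP_2163b8_an.GeneratorRecipe
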